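import Mathlib
import Pool.Agent.N990.PT.Stm

/-!
# Project PT, part MIX: the Gibbs states form a simplex
-/

set_option autoImplicit false

open MeasureTheory Filter
open scoped ENNReal Topology
open Pool.Agent.N988.EA Pool.Agent.N990.PT

namespace Pool.Agent.N655.PT

variable {b q : ℕ} {p : ℕ → Fin b × Bool}

/-- a function of the spins in `H n` -/
def Cyl (p : ℕ → Fin b × Bool) (n : ℕ) (f : (VInf p → Fin q) → ℝ) : Prop :=
  ∀ ω ω', (∀ y, ω (inc p n y) = ω' (inc p n y)) → f ω = f ω'

theorem cyl_mono (hG : S_GEO) {f : (VInf p → Fin q) → ℝ} {m n : ℕ} (hmn : m ≤ n)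
    (h : Cyl p m f) : Cyl p n f := by
  induction n, hmn using Nat.le_induction with
  | base => exact h
  | succ n _ ih =>
    intro ω ω' hy
    refine ih ω ω' fun y => ?_
    rw [← (hG b q p).2.1 n y]
    exact hy _

theorem meas_ends (n : ℕ) : Measurable (ends p n : (VInf p → Fin q) → Bool → Fin q) :=
  measurable_pi_lambda _ fun t => measurable_pi_apply _

open Classical in
/-- a configuration with given ends -/
noncomputable def ext (p : ℕ → Fin b × Bool) (n : ℕ) (τ : Bool → Fin q) : VInf p → Fin q :=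
  fun v => if v = inc p n (.inl true) then τ true else τ false

theorem ends_ext (hG : S_GEO) (n : ℕ) (τ : Bool → Fin q) : ends p n (ext p n τ) = τ := by
  funext t
  unfold ends ext
  cases t
  · rw [if_neg]
    intro h
    have := (hG b q p).2.2.1 n h
    simp at this
  · rw [if_pos rfl]

theorem GG_ends (hG : S_GEO) (β : ℝ) {n : ℕ} {f : (VInf p → Fin q) → ℝ} (hf : Cyl p n f)
    {ω ω' : VInf p → Fin q} (h : ends p n ω = ends p n ω') : GG β p n f ω = GG β p n f ω' := by
  unfold GG
  rw [h]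
  refine Finset.sum_congr rfl fun s _ => ?_
  congr 1
  refine hf _ _ fun y => ?_
  have hr := (hG b q p).2.2.2.2.1 n
  rcases y with t | x
  · rw [(hr ω s).2 _ fun x hx => absurd ((hG b q p).2.2.1 n hx) (by simp),
      (hr ω' s).2 _ fun x hx => absurd ((hG b q p).2.2.1 n hx) (by simp)]
    exact congrFun h t
  · rw [(hr ω s).1 x, (hr ω' s).1 x]

theorem GG_bd (hW : S_GWF) (β : ℝ) (n : ℕ) {f : (VInf p → Fin q) → ℝ} {C : ℝ}
    (hf : ∀ ω, |f ω| ≤ C) (ω : VInf p → Fin q) : |GG β p n f ω| ≤ C := by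
  obtain ⟨-, h0, h1⟩ := hW b q β n (ends p n ω)
  unfold GG
  calc |∑ s : Vert b n → Fin q, gw β n (ends p n ω) s * f (repl p n ω s)|
      ≤ ∑ s : Vert b n → Fin q, |gw β n (ends p n ω) s * f (repl p n ω s)| :=
        Finset.abs_sum_le_sum_abs _ _
    _ ≤ ∑ s : Vert b n → Fin q, gw β n (ends p n ω) s * C := by
        refine Finset.sum_le_sum fun s _ => ?_
        rw [abs_mul, abs_of_nonneg (h0 s)]
        exact mul_le_mul_of_nonneg_left (hf _) (h0 s)
    _ = C := by rw [← Finset.sum_mul, h1, one_mul]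

theorem GG_meas (hG : S_GEO) (β : ℝ) (n : ℕ) {f : (VInf p → Fin q) → ℝ} (hf : Measurable f) :
    Measurable (GG β p n f) := by
  unfold GG
  refine Finset.measurable_fun_sum _ fun s _ => ?_
  refine Measurable.mul ?_ (hf.comp ((hG b q p).2.2.2.2.2.2.2 n s))
  exact (measurable_of_finite fun τ : Bool → Fin q => gw β n τ s).comp (meas_ends n)

theorem integ (μ : Measure (VInf p → Fin q)) [IsFiniteMeasure μ] {f : (VInf p → Fin q) → ℝ}
    (hf : Measurable f) {C : ℝ} (hb : ∀ ω, |f ω| ≤ C) : Integrable f μ :=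
  Integrable.of_bound hf.aestronglyMeasurable C (Eventually.of_forall fun ω => by
    rw [Real.norm_eq_abs]; exact hb ω)

/-- integrals over a mixture -/
theorem int_mix (π : Fin q → Measure (VInf p → Fin q)) [∀ k, IsProbabilityMeasure (π k)]
    (t : Fin q → ℝ≥0∞) (ht : ∑ k, t k = 1) {f : (VInf p → Fin q) → ℝ}
    (hf : Measurable f) {C : ℝ} (hb : ∀ ω, |f ω| ≤ C) :
    ∫ ω, f ω ∂(∑ k, t k • π k) = ∑ k, (t k).toReal * ∫ ω, f ω ∂(π k) := by
  have htk : ∀ k, t k ≠ ∞ := by
    intro k hk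
    have h1 : t k ≤ 1 := by
      rw [← ht]
      exact Finset.single_le_sum (fun i _ => zero_le) (Finset.mem_univ k)
    rw [hk] at h1
    exact absurd h1 (by simp)
  rw [integral_finsetSum_measure fun k _ => (integ (π k) hf hb).smul_measure (htk k)]
  refine Finset.sum_congr rfl fun k _ => ?_
  rw [integral_smul_measure, smul_eq_mul]

/-- mixtures of Gibbs states -/
theorem mix_gibbs (hG : S_GEO) (hW : S_GWF) {β : ℝ} (π : Fin q → Measure (VInf p → Fin q))
    (hπ : ∀ k, IsGibbs β p (π k)) (t : Fin q → ℝ≥0∞) (ht : ∑ k, t k = 1) :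
    IsGibbs β p (∑ k, t k • π k) := by
  have hpr : ∀ k, IsProbabilityMeasure (π k) := fun k => (hπ k).prob
  refine ⟨⟨?_⟩, ?_⟩
  · rw [Measure.finsetSum_apply]
    simp [ht]
  · rintro n f hf ⟨C, hC⟩
    rw [int_mix π t ht hf hC]
    have h1 := int_mix π t ht (GG_meas hG β n hf) (fun ω => GG_bd hW β n hC ω)
    refine Eq.trans ?_ h1.symm
    refine Finset.sum_congr rfl fun k _ => ?_
    rw [(hπ k).dlr n f hf ⟨C, hC⟩]
    rfl

/-- integrals of functions of the ends -/
theorem fs (μ : Measure (VInf p → Fin q)) [IsProbabilityMeasure μ] (n : ℕ)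
    (g : (Bool → Fin q) → ℝ) :
    ∫ ω, g (ends p n ω) ∂μ = ∑ τ, μ.real {ω | ends p n ω = τ} * g τ := by
  have hm := meas_ends (p := p) (q := q) n
  have h1 : ∫ ω, g (ends p n ω) ∂μ = ∫ τ, g τ ∂(μ.map (ends p n)) :=
    (integral_map hm.aemeasurable (measurable_of_finite g).aestronglyMeasurable).symm
  have hpr : IsProbabilityMeasure (μ.map (ends p n : (VInf p → Fin q) → Bool → Fin q)) :=
    Measure.isProbabilityMeasure_map hm.aemeasurable
  rw [h1, integral_fintype Integrable.of_finite]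
  refine Finset.sum_congr rfl fun τ _ => ?_
  rw [smul_eq_mul, map_measureReal_apply hm (measurableSet_singleton τ)]
  rfl

theorem prP (μ : Measure (VInf p → Fin q)) [IsProbabilityMeasure μ] (n : ℕ)
    (P : (Bool → Fin q) → Prop) [DecidablePred P] :
    μ.real {ω | P (ends p n ω)} =
      ∑ τ, μ.real {ω | ends p n ω = τ} * (if P τ then 1 else 0) := by
  rw [← fs μ n (fun τ => if P τ then (1 : ℝ) else 0)]
  have hm : MeasurableSet {ω : VInf p → Fin q | P (ends p n ω)} :=
    (meas_ends n) (Set.toFinite {τ | P τ}).measurableSet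
  rw [← integral_indicator_one hm]
  refine integral_congr_ae (Eventually.of_forall fun ω => ?_)
  by_cases h : P (ends p n ω)
  · simp [h]
  · simp [h]

theorem sumw (μ : Measure (VInf p → Fin q)) [IsProbabilityMeasure μ] (n : ℕ) :
    ∑ τ : Bool → Fin q, μ.real {ω | ends p n ω = τ} = 1 := by
  have h := fs μ n (fun _ => (1 : ℝ))
  simp only [mul_one, integral_const, probReal_univ, smul_eq_mul] at h
  exact h.symm

theorem gibbs_sum (hG : S_GEO) {β : ℝ} {μ : Measure (VInf p → Fin q)} (hμ : IsGibbs β p μ)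
    {n : ℕ} {f : (VInf p → Fin q) → ℝ} (hf : Measurable f) (hb : ∀ ω, |f ω| ≤ 1)
    (hc : Cyl p n f) :
    ∫ ω, f ω ∂μ = ∑ τ, μ.real {ω | ends p n ω = τ} * GG β p n f (ext p n τ) := by
  have hpr := hμ.prob
  rw [← fs μ n (fun τ => GG β p n f (ext p n τ)), hμ.dlr n f hf ⟨1, hb⟩]
  refine integral_congr_ae (Eventually.of_forall fun ω => ?_)
  exact GG_ends hG β hc (ends_ext hG n _).symm

theorem sum_diag (h : (Bool → Fin q) → ℝ) :
    ∑ k : Fin q, h (fun _ => k) = ∑ τ : Bool → Fin q, if τ false = τ true then h τ else 0 := by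
  rw [← Finset.sum_filter]
  refine Finset.sum_nbij' (fun k _ => k) (fun τ => τ false) ?_ ?_ ?_ ?_ ?_
  · intro k _
    simp
  · intro τ _
    exact Finset.mem_univ _
  · intro k _
    rfl
  · intro τ hτ
    rw [Finset.mem_filter] at hτ
    funext t
    cases t
    · rfl
    · exact hτ.2
  · intro k _
    rfl

theorem key1 (hG : S_GEO) (hW : S_GWF) {β : ℝ} {μ : Measure (VInf p → Fin q)}
    (hμ : IsGibbs β p μ) {n : ℕ} {f : (VInf p → Fin q) → ℝ} (hf : Measurable f)
    (hb : ∀ ω, |f ω| ≤ 1) (hc : Cyl p n f) :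
    |∫ ω, f ω ∂μ - ∑ k : Fin q, μ.real {ω | ends p n ω = fun _ => k} *
      GG β p n f (ext p n fun _ => k)| ≤ μ.real {ω | ends p n ω false ≠ ends p n ω true} := by
  have hpr := hμ.prob
  rw [gibbs_sum hG hμ hf hb hc, prP μ n (fun τ => τ false ≠ τ true),
    sum_diag (fun τ => μ.real {ω | ends p n ω = τ} * GG β p n f (ext p n τ)),
    ← Finset.sum_sub_distrib]
  refine (Finset.abs_sum_le_sum_abs _ _).trans (Finset.sum_le_sum fun τ _ => ?_)
  by_cases h : τ false = τ true
  · rw [if_pos h, sub_self, abs_zero, if_neg (by simpa using h), mul_zero]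
  · rw [if_neg h, sub_zero, if_pos h, abs_mul, abs_of_nonneg measureReal_nonneg]
    exact mul_le_mul_of_nonneg_left (GG_bd hW β n hb _) measureReal_nonneg

theorem key2 (hG : S_GEO) (hW : S_GWF) {β : ℝ} {μ : Measure (VInf p → Fin q)}
    (hμ : IsGibbs β p μ) {n : ℕ} {f : (VInf p → Fin q) → ℝ} (hf : Measurable f)
    (hb : ∀ ω, |f ω| ≤ 1) (hc : Cyl p n f) (κ : Bool → Fin q) :
    |GG β p n f (ext p n κ) - ∫ ω, f ω ∂μ| ≤ 2 * (1 - μ.real {ω | ends p n ω = κ}) := by
  have hpr := hμ.prob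
  have h1 : GG β p n f (ext p n κ) =
      ∑ τ : Bool → Fin q, μ.real {ω | ends p n ω = τ} * GG β p n f (ext p n κ) := by
    rw [← Finset.sum_mul, sumw, one_mul]
  have h2 : 2 * (1 - μ.real {ω | ends p n ω = κ}) =
      ∑ τ : Bool → Fin q, (2 * μ.real {ω | ends p n ω = τ} -
        if τ = κ then 2 * μ.real {ω | ends p n ω = τ} else 0) := by
    rw [Finset.sum_sub_distrib, ← Finset.mul_sum, sumw, Finset.sum_ite_eq' Finset.univ κ,
      if_pos (Finset.mem_univ κ)]
    ring
  rw [gibbs_sum hG hμ hf hb hc, h2]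
  conv_lhs => rw [h1]
  rw [← Finset.sum_sub_distrib]
  refine (Finset.abs_sum_le_sum_abs _ _).trans (Finset.sum_le_sum fun τ _ => ?_)
  by_cases h : τ = κ
  · rw [if_pos h, h, sub_self, sub_self, abs_zero]
  · rw [if_neg h, sub_zero, ← mul_sub, abs_mul, abs_of_nonneg measureReal_nonneg, mul_comm]
    refine mul_le_mul_of_nonneg_right ?_ measureReal_nonneg
    have h3 := abs_le.1 (GG_bd hW β n hb (ext p n κ))
    have h4 := abs_le.1 (GG_bd hW β n hb (ext p n τ))
    rw [abs_le]
    constructor <;> linarith [h3.1, h3.2, h4.1, h4.2]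

/-- the weights of the constant ends describe all integrals -/
theorem appr (hD : S_DIF) (hG : S_GEO) (hW : S_GWF) (hq : 2 ≤ q) {β : ℝ}
    (hC : ∃ C : ℝ, ∀ n : ℕ, (n : ℝ) - C ≤ Kf b q β n) (π : Fin q → Measure (VInf p → Fin q))
    (hπ : ∀ k, IsGibbs β p (π k))
    (hπ1 : ∀ k, Tendsto (fun n => (π k).real {ω | ends p n ω = fun _ => k}) atTop (𝓝 1))
    {μ : Measure (VInf p → Fin q)} (hμ : IsGibbs β p μ) {m : ℕ} {f : (VInf p → Fin q) → ℝ}
    (hf : Measurable f) (hb : ∀ ω, |f ω| ≤ 1) (hc : Cyl p m f) :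
    Tendsto (fun n => ∑ k : Fin q, μ.real {ω | ends p n ω = fun _ => k} * ∫ ω, f ω ∂(π k))
      atTop (𝓝 (∫ ω, f ω ∂μ)) := by
  have hpr := hμ.prob
  have hd := hD b q hq β p hC μ hμ
  have h0 : Tendsto (fun n => μ.real {ω | ends p n ω false ≠ ends p n ω true} +
      ∑ k : Fin q, 2 * (1 - (π k).real {ω | ends p n ω = fun _ => k})) atTop (𝓝 0) := by
    have h1 : Tendsto (fun n => ∑ k : Fin q, 2 * (1 - (π k).real {ω | ends p n ω = fun _ => k}))
        atTop (𝓝 (∑ k : Fin q, 2 * (1 - 1))) :=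
      tendsto_finsetSum _ fun k _ => ((hπ1 k).const_sub 1).const_mul 2
    have h2 := hd.add h1
    simpa using h2
  rw [tendsto_iff_norm_sub_tendsto_zero]
  refine squeeze_zero' (Eventually.of_forall fun n => norm_nonneg _) ?_ h0
  filter_upwards [eventually_ge_atTop m] with n hn
  have hcn := cyl_mono hG hn hc
  have h3 := key1 hG hW hμ hf hb hcn
  have h4 : |∑ k : Fin q, μ.real {ω | ends p n ω = fun _ => k} *
      GG β p n f (ext p n fun _ => k) - ∑ k : Fin q, μ.real {ω | ends p n ω = fun _ => k} *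
      ∫ ω, f ω ∂(π k)| ≤ ∑ k : Fin q, 2 * (1 - (π k).real {ω | ends p n ω = fun _ => k}) := by
    rw [← Finset.sum_sub_distrib]
    refine (Finset.abs_sum_le_sum_abs _ _).trans (Finset.sum_le_sum fun k _ => ?_)
    rw [← mul_sub, abs_mul, abs_of_nonneg measureReal_nonneg]
    have h5 := key2 hG hW (hπ k) hf hb hcn (fun _ => k)
    calc μ.real {ω | ends p n ω = fun _ => k} *
        |GG β p n f (ext p n fun _ => k) - ∫ ω, f ω ∂(π k)|
        ≤ 1 * |GG β p n f (ext p n fun _ => k) - ∫ ω, f ω ∂(π k)| :=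
          mul_le_mul_of_nonneg_right measureReal_le_one (abs_nonneg _)
      _ ≤ _ := by rw [one_mul]; exact h5
  rw [Real.norm_eq_abs]
  rw [abs_le] at h3 h4 ⊢
  constructor <;> linarith [h3.1, h3.2, h4.1, h4.2]

/-- measures which agree on functions of finitely many spins -/
theorem eq_of_cyl (hG : S_GEO) (μ μ' : Measure (VInf p → Fin q)) [IsProbabilityMeasure μ]
    [IsProbabilityMeasure μ'] (h : ∀ (n : ℕ) (f : (VInf p → Fin q) → ℝ), Measurable f →
      (∀ ω, |f ω| ≤ 1) → Cyl p n f → ∫ ω, f ω ∂μ = ∫ ω, f ω ∂μ') : μ = μ' := by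
  obtain ⟨-, hG1, hG2, hG3, -⟩ := hG b q p
  have hmeas : ∀ n, Measurable (fun (ω : VInf p → Fin q) (y : Pt b n) => ω (inc p n y)) :=
    fun n => measurable_pi_lambda _ fun y => measurable_pi_apply _
  have key : ∀ ν : Measure (VInf p → Fin q), IsProbabilityMeasure ν → ∀ (n : ℕ)
      (A : Set (Pt b n → Fin q)), MeasurableSet A →
      (ν.map fun (ω : VInf p → Fin q) (y : Pt b n) => ω (inc p n y)).real A =
        ∫ ω, A.indicator (fun _ => (1 : ℝ)) (fun y => ω (inc p n y)) ∂ν := by
    intro ν hν n A hA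
    rw [← integral_map (φ := fun (ω : VInf p → Fin q) (y : Pt b n) => ω (inc p n y))
      (f := A.indicator fun _ => (1 : ℝ)) (hmeas n).aemeasurable
      (measurable_const.indicator hA).aestronglyMeasurable]
    exact (integral_indicator_one hA).symm
  have hmap : ∀ n, (μ.map fun (ω : VInf p → Fin q) (y : Pt b n) => ω (inc p n y)) =
      μ'.map fun (ω : VInf p → Fin q) (y : Pt b n) => ω (inc p n y) := by
    intro n
    ext A hA
    have h4 := key μ inferInstance n A hA
    have h5 := key μ' inferInstance n A hA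
    have h6 := h n (fun ω => A.indicator (fun _ => (1 : ℝ)) (fun y => ω (inc p n y)))
      ((measurable_const.indicator hA).comp (hmeas n)) (fun ω => by
        by_cases h : (fun y => ω (inc p n y)) ∈ A
        · rw [Set.indicator_of_mem h, abs_one]
        · rw [Set.indicator_of_notMem h, abs_zero]; exact zero_le_one) (fun ω ω' hω => by
        have e : (fun y => ω (inc p n y)) = fun y => ω' (inc p n y) := funext hω
        show A.indicator (fun _ => (1 : ℝ)) (fun y => ω (inc p n y)) = _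
        rw [e])
    have h7 := h4.trans (h6.trans h5.symm)
    have hq1 : IsProbabilityMeasure (μ.map fun (ω : VInf p → Fin q) (y : Pt b n) =>
      ω (inc p n y)) := Measure.isProbabilityMeasure_map (hmeas n).aemeasurable
    have hq2 : IsProbabilityMeasure (μ'.map fun (ω : VInf p → Fin q) (y : Pt b n) =>
      ω (inc p n y)) := Measure.isProbabilityMeasure_map (hmeas n).aemeasurable
    exact (ENNReal.toReal_eq_toReal_iff' (measure_ne_top _ _) (measure_ne_top _ _)).1 h7
  have hup : ∀ (v : VInf p) (n m : ℕ), n ≤ m → (∃ x, inc p n x = v) → ∃ x, inc p m x = v := by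
    intro v n m hnm
    induction m, hnm using Nat.le_induction with
    | base => exact id
    | succ m _ ih =>
      intro h
      obtain ⟨x, hx⟩ := ih h
      exact ⟨emb (p m).1 (p m).2 x, by rw [hG1, hx]⟩
  have hfin : ∀ I : Finset (VInf p), ∃ n, ∀ v ∈ I, ∃ x, inc p n x = v := by
    intro I
    choose N hN using hG3
    exact ⟨I.sup N, fun v hv => hup v _ _ (Finset.le_sup hv) (hN v)⟩
  have hres : ∀ I : Finset (VInf p), Measurable (I.restrict (π := fun _ : VInf p => Fin q)) :=
    fun I => Finset.measurable_restrict I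
  refine IsProjectiveLimit.unique (P := fun I => μ'.map (I.restrict (π := fun _ : VInf p => Fin q)))
    (fun I => ?_) (fun I => rfl)
  obtain ⟨n, hn⟩ := hfin I
  choose y hy using hn
  have hs : Measurable fun (η : Pt b n → Fin q) (i : I) => η (y i.1 i.2) :=
    measurable_pi_lambda _ fun i => measurable_pi_apply _
  have e : (I.restrict (π := fun _ : VInf p => Fin q)) =
      (fun (η : Pt b n → Fin q) (i : I) => η (y i.1 i.2)) ∘
        fun (ω : VInf p → Fin q) (y : Pt b n) => ω (inc p n y) := by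
    funext ω i
    show ω i = ω (inc p n (y i.1 i.2))
    rw [hy]
  show μ.map _ = μ'.map _
  rw [e, ← Measure.map_map hs (hmeas n), ← Measure.map_map hs (hmeas n), hmap n]

theorem wt_lim (π : Fin q → Measure (VInf p → Fin q)) (hpr : ∀ k, IsProbabilityMeasure (π k))
    (hπ1 : ∀ k, Tendsto (fun n => (π k).real {ω | ends p n ω = fun _ => k}) atTop (𝓝 1))
    (j k : Fin q) : Tendsto (fun n => (π j).real {ω | ends p n ω = fun _ => k}) atTop
      (𝓝 (if j = k then 1 else 0)) := by
  by_cases h : j = k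
  · rw [if_pos h, ← h]
    exact hπ1 j
  · rw [if_neg h]
    have h1 : Tendsto (fun n => 1 - (π j).real {ω | ends p n ω = fun _ => j}) atTop (𝓝 0) := by
      have := (hπ1 j).const_sub 1
      rwa [sub_self] at this
    refine squeeze_zero (fun n => measureReal_nonneg) (fun n => ?_) h1
    have hm : MeasurableSet {ω : VInf p → Fin q | ends p n ω = fun _ => j} :=
      (meas_ends n) (measurableSet_singleton (fun _ : Bool => j))
    rw [← probReal_compl_eq_one_sub hm]
    refine measureReal_mono ?_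
    intro ω hω hω'
    have h2 : (fun _ : Bool => k) = fun _ => j := hω.symm.trans hω'
    exact h (congrFun h2 true).symm

theorem t_mix (h1 : Pool.Agent.N990.PT.S_DIF) (h2 : Pool.Agent.N990.PT.S_GEO)
    (h3 : Pool.Agent.N990.PT.S_GWF) : Pool.Agent.N990.PT.S_MIX := by
  intro b q hq β p hC π hπ hπ1
  have hpr : ∀ k, IsProbabilityMeasure (π k) := fun k => (hπ k).prob
  refine ⟨fun t ht => mix_gibbs h2 h3 π hπ t ht, fun μ hμ => ?_⟩
  have hprμ := hμ.prob
  -- the weights
  obtain ⟨t, ht, φ, hφ, hlim⟩ := (isCompact_Icc (a := (0 : Fin q → ℝ)) (b := 1)).tendsto_subseq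
    (x := fun n k => μ.real {ω | ends p n ω = fun _ => k})
    (fun n => ⟨fun k => measureReal_nonneg, fun k => measureReal_le_one⟩)
  have ht0 : ∀ k, 0 ≤ t k := fun k => ht.1 k
  have hint : ∀ (m : ℕ) (f : (VInf p → Fin q) → ℝ), Measurable f → (∀ ω, |f ω| ≤ 1) →
      Cyl p m f → ∫ ω, f ω ∂μ = ∑ k, t k * ∫ ω, f ω ∂(π k) := by
    intro m f hf hb hc
    have h4 := (appr h1 h2 h3 hq hC π hπ hπ1 hμ hf hb hc).comp hφ.tendsto_atTop
    have h5 : Tendsto (fun n => ∑ k : Fin q, μ.real {ω | ends p (φ n) ω = fun _ => k} *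
        ∫ ω, f ω ∂(π k)) atTop (𝓝 (∑ k, t k * ∫ ω, f ω ∂(π k))) :=
      tendsto_finsetSum _ fun k _ => ((tendsto_pi_nhds.1 hlim) k).mul_const _
    exact tendsto_nhds_unique h4 h5
  have hsum : ∑ k, t k = 1 := by
    have h4 := hint 0 (fun _ => 1) measurable_const (fun _ => by rw [abs_one]) (fun _ _ _ => rfl)
    simp only [integral_const, probReal_univ, smul_eq_mul, mul_one] at h4
    exact h4.symm
  obtain ⟨T, hT⟩ : ∃ T : Fin q → ℝ≥0∞, T = fun k => ENNReal.ofReal (t k) := ⟨_, rfl⟩
  have hTr : ∀ k, (T k).toReal = t k := fun k => by rw [hT]; exact ENNReal.toReal_ofReal (ht0 k)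
  have hTs : ∑ k, T k = 1 := by
    rw [hT, ← ENNReal.ofReal_sum_of_nonneg fun k _ => ht0 k, hsum, ENNReal.ofReal_one]
  have hmix := mix_gibbs h2 h3 π hπ T hTs
  have hpm := hmix.prob
  have hμT : μ = ∑ k, T k • π k := by
    refine eq_of_cyl h2 _ _ fun n f hf hb hc => ?_
    rw [hint n f hf hb hc, int_mix π T hTs hf hb]
    simp only [hTr]
  refine ⟨T, ⟨hTs, hμT⟩, ?_⟩
  -- uniqueness
  have huni : ∀ S : Fin q → ℝ≥0∞, ∑ k, S k = 1 → μ = ∑ k, S k • π k → ∀ k,
      Tendsto (fun n => μ.real {ω | ends p n ω = fun _ => k}) atTop (𝓝 (S k).toReal) := by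
    intro S hS hμS k
    have e : ∀ n, μ.real {ω | ends p n ω = fun _ => k} =
        ∑ j, (S j).toReal * (π j).real {ω | ends p n ω = fun _ => k} := by
      intro n
      have hm : MeasurableSet {ω : VInf p → Fin q | ends p n ω = fun _ => k} :=
        (meas_ends n) (measurableSet_singleton (fun _ : Bool => k))
      have h6 := int_mix π S hS (f := {ω : VInf p → Fin q | ends p n ω = fun _ => k}.indicator
        (1 : (VInf p → Fin q) → ℝ)) (measurable_one.indicator hm) (C := 1) (fun ω => by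
          by_cases h : ω ∈ {ω : VInf p → Fin q | ends p n ω = fun _ => k}
          · rw [Set.indicator_of_mem h, Pi.one_apply, abs_one]
          · rw [Set.indicator_of_notMem h, abs_zero]; exact zero_le_one)
      rw [← hμS, integral_indicator_one hm] at h6
      rw [h6]
      refine Finset.sum_congr rfl fun j _ => ?_
      rw [integral_indicator_one hm]
    simp only [e]
    have h7 : Tendsto (fun n => ∑ j, (S j).toReal * (π j).real {ω | ends p n ω = fun _ => k})
        atTop (𝓝 (∑ j, (S j).toReal * (if j = k then 1 else 0))) :=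
      tendsto_finsetSum _ fun j _ => (wt_lim π hpr hπ1 j k).const_mul _
    simpa using h7
  rintro S ⟨hS, hμS⟩
  funext k
  have h8 := tendsto_nhds_unique (huni S hS hμS k) (huni T hTs hμT k)
  have hfin : ∀ R : Fin q → ℝ≥0∞, ∑ k, R k = 1 → R k ≠ ∞ := by
    intro R hR hk
    have h9 : R k ≤ 1 := by
      rw [← hR]
      exact Finset.single_le_sum (fun i _ => zero_le) (Finset.mem_univ k)
    rw [hk] at h9
    exact absurd h9 (by simp)
  exact (ENNReal.toReal_eq_toReal_iff' (hfin S hS) (hfin T hTs)).1 h8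

end Pool.Agent.N655.PT
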